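import Pool.Agent.N333.GR.Crt

/-!
# Counting the `N ≤ X` with prescribed divisors of `2 N - n`, without loss
-/

set_option autoImplicit false

namespace Pool.Agent.L7h79.GR

open Finset Pool.Agent.N333.GR Pool.Agent.N333.GR.Crt

/-- the least common multiple of the divisors in the list -/
def lc (c : List (ℕ × ℕ)) : ℕ := (c.map Prod.snd).foldr Nat.lcm 1

theorem lc_cons (p : ℕ × ℕ) (c : List (ℕ × ℕ)) : lc (p :: c) = Nat.lcm p.2 (lc c) := rfl

theorem lc_pos' {c : List (ℕ × ℕ)} (h : ∀ p ∈ c, 0 < p.2) : 0 < lc c := by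
  apply lc_pos
  intro d hd
  obtain ⟨p, hp, rfl⟩ := List.mem_map.1 hd
  exact h p hp

/-- the divisors of odd numbers are odd -/
theorem odd_of_dvd {N n d : ℕ} (hn : n % 2 = 1) (h : (d : ℤ) ∣ 2 * (N : ℤ) - n) : Nat.Coprime d 2 := by
  rw [Nat.coprime_two_right]
  by_contra hev
  rw [Nat.not_odd_iff_even] at hev
  obtain ⟨k, hk⟩ := hev
  obtain ⟨q, hq⟩ := h
  rw [hk] at hq
  push_cast at hq
  have h2 : (n : ℤ) = 2 * (N - k * q) := by linarith
  omega

/-- the differences of the solutions are multiples of the least common multiple -/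
theorem lc_dvd_sub {c : List (ℕ × ℕ)} {N N' : ℕ} (hle : N ≤ N') (hodd : ∀ p ∈ c, p.1 % 2 = 1)
    (h : ∀ p ∈ c, (p.2 : ℤ) ∣ 2 * (N : ℤ) - p.1) (h' : ∀ p ∈ c, (p.2 : ℤ) ∣ 2 * (N' : ℤ) - p.1) :
    lc c ∣ N' - N := by
  apply lc_dvd
  intro d hd
  obtain ⟨p, hp, rfl⟩ := List.mem_map.1 hd
  have h2 := dvd_sub (h' p hp) (h p hp)
  have he : 2 * (N' : ℤ) - p.1 - (2 * (N : ℤ) - p.1) = ((2 * (N' - N) : ℕ) : ℤ) := by
    push_cast [Nat.cast_sub hle]; ring
  rw [he] at h2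
  have h3 : p.2 ∣ 2 * (N' - N) := Int.natCast_dvd_natCast.1 h2
  exact (odd_of_dvd (hodd p hp) (h p hp)).dvd_of_dvd_mul_left h3

/-- the same for integers -/
theorem lc_dvd_sub_int {c : List (ℕ × ℕ)} {N N' : ℕ} (hodd : ∀ p ∈ c, p.1 % 2 = 1)
    (h : ∀ p ∈ c, (p.2 : ℤ) ∣ 2 * (N : ℤ) - p.1) (h' : ∀ p ∈ c, (p.2 : ℤ) ∣ 2 * (N' : ℤ) - p.1) :
    (lc c : ℤ) ∣ (N' : ℤ) - N := by
  rcases le_total N N' with hle | hle
  · have := Int.natCast_dvd_natCast.2 (lc_dvd_sub hle hodd h h')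
    rwa [Nat.cast_sub hle] at this
  · have := Int.natCast_dvd_natCast.2 (lc_dvd_sub hle hodd h' h)
    rw [Nat.cast_sub hle] at this
    have e : (N' : ℤ) - N = -((N : ℤ) - N') := by ring
    rw [e]
    exact (dvd_neg).2 this

open Classical in
/-- **the count** -/
theorem lcm_count (X : ℕ) (c : List (ℕ × ℕ)) (hc : ∀ p ∈ c, p.1 % 2 = 1 ∧ 0 < p.2) :
    (((Icc 1 X).filter (fun N : ℕ => ∀ p ∈ c, (p.2 : ℤ) ∣ 2 * (N : ℤ) - p.1)).card : ℝ) ≤
      (X : ℝ) / lc c + 1 := by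
  set S := (Icc 1 X).filter (fun N : ℕ => ∀ p ∈ c, (p.2 : ℤ) ∣ 2 * (N : ℤ) - p.1) with hS
  set L := lc c with hL
  have hLpos : 0 < L := lc_pos' fun p hp => (hc p hp).2
  have hodd : ∀ p ∈ c, p.1 % 2 = 1 := fun p hp => (hc p hp).1
  have hinj : ∀ N ∈ S, ∀ N' ∈ S, N / L = N' / L → N ≤ N' → N = N' := by
    intro N hN N' hN' hdiv hle
    rw [hS, mem_filter] at hN hN'
    have h1 : L ∣ N' - N := lc_dvd_sub hle hodd hN.2 hN'.2
    obtain ⟨k, hk⟩ := h1
    have h2 : N' = N + L * k := by omega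
    have h3 : N' / L = N / L + k := by
      rw [h2, Nat.add_mul_div_left _ _ hLpos]
    have h4 : k = 0 := by omega
    rw [h2, h4]; simp
  have hcard : S.card ≤ X / L + 1 := by
    have h1 : S.card ≤ (range (X / L + 1)).card := by
      apply Finset.card_le_card_of_injOn (fun N => N / L)
      · intro N hN
        have hN' : N ∈ S := hN
        rw [hS, mem_filter, mem_Icc] at hN'
        have : N / L ≤ X / L := Nat.div_le_div_right hN'.1.2
        simp only [coe_range, Set.mem_Iio]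
        omega
      · intro N hN N' hN' he
        have he' : N / L = N' / L := he
        rcases le_total N N' with h | h
        · exact hinj N hN N' hN' he' h
        · exact (hinj N' hN' N hN he'.symm h).symm
    simpa using h1
  calc (S.card : ℝ) ≤ ((X / L + 1 : ℕ) : ℝ) := by exact_mod_cast hcard
    _ = ((X / L : ℕ) : ℝ) + 1 := by push_cast; ring
    _ ≤ (X : ℝ) / L + 1 := by
        have := @Nat.cast_div_le ℝ _ _ _ X L
        linarith

/-- the divisors of the least common multiple and of `2 N - n` are small -/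
theorem gcd_lc_small {G N n : ℕ} (hG : 1 ≤ G) {c : List (ℕ × ℕ)} (hn : n ≤ G)
    (hc : ∀ p ∈ c, p.1 < n ∧ 0 < p.2) (h : ∀ p ∈ c, (p.2 : ℤ) ∣ 2 * (N : ℤ) - p.1) :
    Nat.gcd (2 * (N : ℤ) - n).natAbs (lc c) ≤ G ^ c.length := by
  have h1 := gcd_lc_le (2 * (N : ℤ) - n).natAbs G hG (c.map Prod.snd) (by
    intro e he
    obtain ⟨p, hp, rfl⟩ := List.mem_map.1 he
    refine ⟨(hc p hp).2, ?_⟩
    have h2 : ((Nat.gcd (2 * (N : ℤ) - n).natAbs p.2 : ℕ) : ℤ) ∣ 2 * (N : ℤ) - n :=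
      (Int.natCast_dvd_natCast.2 (Nat.gcd_dvd_left _ _)).trans (Int.natAbs_dvd.2 dvd_rfl)
    have h3 : ((Nat.gcd (2 * (N : ℤ) - n).natAbs p.2 : ℕ) : ℤ) ∣ 2 * (N : ℤ) - p.1 :=
      (Int.natCast_dvd_natCast.2 (Nat.gcd_dvd_right _ _)).trans (h p hp)
    have h4 := dvd_sub h3 h2
    have he2 : 2 * (N : ℤ) - p.1 - (2 * (N : ℤ) - n) = (n : ℤ) - p.1 := by ring
    rw [he2] at h4
    have h5 := (hc p hp).1
    have h6 := Int.le_of_dvd (by omega) h4
    omega)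
  rwa [List.length_map] at h1

end Pool.Agent.L7h79.GR
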