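import Pool.Agent.L7h79.GR.Stm
import Pool.Agent.L7h79.GR.Crt
import Pool.Agent.N333.GR.Cnt

/-!
# The union bound for bad runs of typical numbers
-/

set_option autoImplicit false

namespace Pool.Agent.L7h79.GR

open Finset Pool.Agent.N333.GR Pool.Agent.N333.GR.Cnt

/-- a continuation contains the conditions for the list -/
lemma BB_dvd {G Y Ts D : ℕ} {S : Finset ℕ} {N : ℕ} : ∀ (k : ℕ) (c : List (ℕ × ℕ)) (t' : ℕ),
    BB G Y Ts D S N k c t' → ∀ p ∈ c, (p.2 : ℤ) ∣ 2 * (N : ℤ) - p.1 := by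
  intro k
  induction k with
  | zero => intro c t' h; exact h
  | succ k ih =>
    rintro c t' ⟨n, _, d, _, t, _, h⟩ p hp
    exact ih _ _ h p (List.mem_cons_of_mem _ hp)

open Classical in
theorem claim' (hB : S_WB') (hA : S_WA') (G Y T0 Ts D X M Z r : ℕ) (S : Finset ℕ) (hG : 1 ≤ G)
    (hY : 2 ≤ Y) (hT0 : 1 ≤ T0) (hTs : 1 ≤ Ts) (hD : 1 ≤ D) (hM : 1 ≤ M) (hZ : G ^ r ≤ Z)
    (hTY : Z * (Ts ^ 2 * Y) ≤ T0 * D ^ 2) :
    ∀ (k : ℕ) (c : List (ℕ × ℕ)) (t' : ℕ),
    (∀ p ∈ c, p.1 ≤ G ∧ p.1 % 2 = 1 ∧ 0 < p.2) → c.length + k ≤ r → T0 ≤ t' →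
    (((Icc 1 X).filter (fun N : ℕ => Typ G Z M N ∧ BB G Y Ts D S N k c t')).card : ℝ) ≤
      (X : ℝ) / lc c *
        (∏ i ∈ range k, (if i ∈ S then M * (3 * (G : ℝ) ^ 2 * (1 + Real.log Ts)) / Y else
          M * (3 * (G : ℝ) ^ 2 * (1 + Real.log Ts)))) + (G * (Ts : ℝ) ^ 2) ^ k := by
  have hG' : (1 : ℝ) ≤ G := by exact_mod_cast hG
  have hY' : (2 : ℝ) ≤ Y := by exact_mod_cast hY
  have hTs' : (1 : ℝ) ≤ Ts := by exact_mod_cast hTs
  have hM' : (1 : ℝ) ≤ M := by exact_mod_cast hM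
  have hlog : 0 ≤ Real.log Ts := Real.log_nonneg hTs'
  have hZ1 : 1 ≤ Z := le_trans (Nat.one_le_pow _ _ hG) hZ
  obtain ⟨Q, hQ⟩ : ∃ Q : ℝ, Q = M * (3 * (G : ℝ) ^ 2 * (1 + Real.log Ts)) := ⟨_, rfl⟩
  rw [← hQ]
  have hQ0 : 0 < Q := by rw [hQ]; positivity
  intro k
  induction k with
  | zero =>
    intro c t' h2 h3 _
    have h4 := lcm_count X c (fun p hp => (h2 p hp).2)
    have h6 : ((((Icc 1 X).filter (fun N : ℕ => Typ G Z M N ∧ BB G Y Ts D S N 0 c t')).card : ℕ) : ℝ) ≤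
        (X : ℝ) / lc c + 1 := by
      refine le_trans ?_ h4
      apply Nat.cast_le.2
      apply card_le_card
      intro N hN
      rw [Finset.mem_filter] at hN ⊢
      exact ⟨hN.1, hN.2.2⟩
    refine h6.trans ?_
    rw [Finset.prod_range_zero, mul_one, pow_zero]
  | succ k ih =>
    intro c t' h2 h3 h4
    obtain ⟨W, hW⟩ : ∃ W : ℝ, W = ∏ i ∈ range k, (if i ∈ S then Q / Y else Q) := ⟨_, rfl⟩
    have hW0 : 0 ≤ W := by rw [hW]; exact Finset.prod_nonneg fun i _ => by split_ifs <;> positivity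
    have hL0 : 0 < lc c := lc_pos' fun p hp => (h2 p hp).2.2
    have hL0' : (0 : ℝ) < lc c := by exact_mod_cast hL0
    obtain ⟨A, hAd⟩ : ∃ A : ℝ, A = (X : ℝ) / lc c * W := ⟨_, rfl⟩
    have hA0 : 0 ≤ A := by rw [hAd]; positivity
    obtain ⟨B, hBd⟩ : ∃ B : ℝ, B = (G * (Ts : ℝ) ^ 2) ^ k := ⟨_, rfl⟩
    have hB0 : 0 ≤ B := by rw [hBd]; positivity
    obtain ⟨R, hR⟩ : ∃ R : ℝ, R = (if k ∈ S then Q / Y else Q) := ⟨_, rfl⟩
    have hR0 : 0 ≤ R := by rw [hR]; split_ifs <;> positivity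
    -- the sets
    obtain ⟨E, hE⟩ : ∃ E : ℕ → ℕ → ℕ → Finset ℕ, E = fun n d t => (Icc 1 X).filter
      (fun N : ℕ => Typ G Z M N ∧ BB G Y Ts D S N k ((n, d) :: c) (t + 2 * d)) := ⟨_, rfl⟩
    -- the union
    have hsub : (Icc 1 X).filter (fun N : ℕ => Typ G Z M N ∧ BB G Y Ts D S N (k + 1) c t') ⊆
        (ns G c).biUnion fun n => (Icc D Ts).biUnion fun d => (F G Y Ts (k ∈ S) t' d).biUnion
          fun t => E n d t := by
      intro N hN
      obtain ⟨hN1, hty, n, hn, d, hd, t, ht, hb⟩ := Finset.mem_filter.1 hN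
      rw [Finset.mem_biUnion]
      refine ⟨n, hn, ?_⟩
      rw [Finset.mem_biUnion]
      refine ⟨d, hd, ?_⟩
      rw [Finset.mem_biUnion]
      refine ⟨t, ht, ?_⟩
      rw [hE]
      exact Finset.mem_filter.2 ⟨hN1, hty, hb⟩
    -- one set
    have hone : ∀ n ∈ ns G c, ∀ d ∈ Icc D Ts, ∀ t ∈ F G Y Ts (k ∈ S) t' d,
        (((E n d t).card : ℕ) : ℝ) ≤ A * (((Nat.gcd (lc c) d : ℕ) : ℝ) / (d : ℝ)) + B := by
      intro n hn d hd t ht
      rw [ns, Finset.mem_filter, Finset.mem_Icc] at hn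
      rw [Finset.mem_Icc] at hd
      have hd0 : 0 < d := by omega
      have h5 := ih ((n, d) :: c) (t + 2 * d)
        (by
          intro p hp
          rcases List.mem_cons.1 hp with rfl | hp
          · exact ⟨hn.1.2, hn.2.1, hd0⟩
          · exact h2 p hp)
        (by simp only [List.length_cons]; omega) (by have := F_ge ht; omega)
      rw [hE]
      refine h5.trans (le_of_eq ?_)
      rw [lc_cons, ← hW, hAd, ← hBd]
      have hd1 : (0 : ℝ) < d := by exact_mod_cast hd0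
      have h6 : ((Nat.lcm d (lc c) : ℕ) : ℝ) * ((Nat.gcd (lc c) d : ℕ) : ℝ) = d * lc c := by
        rw [Nat.gcd_comm, mul_comm]
        exact_mod_cast Nat.gcd_mul_lcm d (lc c)
      have h7 : (0 : ℝ) < (Nat.lcm d (lc c) : ℕ) := by exact_mod_cast Nat.lcm_pos hd0 hL0
      have h8 : (X : ℝ) / (Nat.lcm d (lc c) : ℕ) = (X : ℝ) / lc c * (((Nat.gcd (lc c) d : ℕ) : ℝ) / (d : ℝ)) := by
        rw [div_mul_div_comm, div_eq_div_iff h7.ne' (by positivity)]
        rw [mul_assoc, mul_comm (lc c : ℝ) (d : ℝ), ← h6]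
        ring
      simp only
      rw [h8]
      ring
    -- one time
    have htime : ∀ n ∈ ns G c, (((((Icc D Ts).biUnion fun d => (F G Y Ts (k ∈ S) t' d).biUnion
        fun t => E n d t).card : ℕ)) : ℝ) ≤ A * (M * (∑ d ∈ Icc D Ts, ∑ _t ∈ F G Y Ts (k ∈ S) t' d, (0 : ℝ)) + R / G) +
          B * (Ts : ℝ) ^ 2 := by
      intro n hn
      have hn' := hn
      rw [ns, Finset.mem_filter, Finset.mem_Icc] at hn'
      simp only [Finset.sum_const_zero, mul_zero, zero_add]
      have hcB : ∑ d ∈ Icc D Ts, ∑ _t ∈ F G Y Ts (k ∈ S) t' d, B ≤ B * (Ts : ℝ) ^ 2 := by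
        calc ∑ d ∈ Icc D Ts, ∑ _t ∈ F G Y Ts (k ∈ S) t' d, B
            = ∑ d ∈ Icc D Ts, ((F G Y Ts (k ∈ S) t' d).card : ℝ) * B := by
              refine Finset.sum_congr rfl fun d _ => ?_
              rw [Finset.sum_const, nsmul_eq_mul]
          _ ≤ ∑ d ∈ Icc D Ts, (Ts : ℝ) * B := by
              refine Finset.sum_le_sum fun d _ => ?_
              have : ((F G Y Ts (k ∈ S) t' d).card : ℝ) ≤ Ts := by exact_mod_cast F_card _ _ _ _ _ _
              exact mul_le_mul_of_nonneg_right this hB0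
          _ = ((Icc D Ts).card : ℝ) * ((Ts : ℝ) * B) := by rw [Finset.sum_const, nsmul_eq_mul]
          _ ≤ (Ts : ℝ) * ((Ts : ℝ) * B) := by
              have h8 : ((Icc D Ts).card : ℝ) ≤ Ts := by
                have : (Icc D Ts).card ≤ Ts := by rw [Nat.card_Icc]; omega
                exact_mod_cast this
              exact mul_le_mul_of_nonneg_right h8 (by positivity)
          _ = B * (Ts : ℝ) ^ 2 := by ring
      by_cases hex : ∃ d ∈ Icc D Ts, ∃ t ∈ F G Y Ts (k ∈ S) t' d, (E n d t).Nonempty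
      · obtain ⟨d0, hd0, t0, ht0, N0, hN0⟩ := hex
        rw [hE] at hN0
        obtain ⟨-, hty, hbb⟩ := Finset.mem_filter.1 hN0
        have hdv := BB_dvd _ _ _ hbb
        have hdv' : ∀ p ∈ c, (p.2 : ℤ) ∣ 2 * (N0 : ℤ) - p.1 := fun p hp => hdv p (List.mem_cons_of_mem _ hp)
        obtain ⟨K, hK⟩ : ∃ K : ℕ, K = Nat.gcd (2 * (N0 : ℤ) - n).natAbs (lc c) := ⟨_, rfl⟩
        have hK1 : 1 ≤ K := by rw [hK]; exact Nat.gcd_pos_of_pos_right _ hL0
        have hKZ : K ≤ Z := by
          rw [hK]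
          refine (gcd_lc_small hG hn'.1.2 (fun p hp => ⟨hn'.2.2 p hp, (h2 p hp).2.2⟩) hdv').trans ?_
          exact (Nat.pow_le_pow_right hG (by omega)).trans hZ
        have hKM : K.divisors.card ≤ M := by
          refine le_trans (card_le_card ?_) (hty n hn'.1.2 hn'.2.1)
          intro e he
          rw [Nat.mem_divisors] at he
          rw [mem_filter, mem_Icc]
          refine ⟨⟨Nat.pos_of_dvd_of_pos he.1 hK1, (Nat.le_of_dvd hK1 he.1).trans hKZ⟩, ?_⟩
          refine (Int.natCast_dvd_natCast.2 he.1).trans ?_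
          rw [hK]
          exact (Int.natCast_dvd_natCast.2 (Nat.gcd_dvd_left _ _)).trans (Int.natAbs_dvd.2 dvd_rfl)
        -- the gcd with the new divisor
        have hgcd : ∀ d ∈ Icc D Ts, ∀ t ∈ F G Y Ts (k ∈ S) t' d,
            (((E n d t).card : ℕ) : ℝ) ≤ A * (((Nat.gcd K d : ℕ) : ℝ) / (d : ℝ)) + B := by
          intro d hd t ht
          rcases (E n d t).eq_empty_or_nonempty with h0 | ⟨N1, hN1⟩
          · rw [h0, card_empty, Nat.cast_zero]
            positivity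
          · refine (hone n hn d hd t ht).trans ?_
            rw [hE] at hN1
            obtain ⟨-, -, hbb1⟩ := Finset.mem_filter.1 hN1
            have hdv1 := BB_dvd _ _ _ hbb1
            have hdv1' : ∀ p ∈ c, (p.2 : ℤ) ∣ 2 * (N1 : ℤ) - p.1 :=
              fun p hp => hdv1 p (List.mem_cons_of_mem _ hp)
            have hsub := lc_dvd_sub_int (fun p hp => (h2 p hp).2.1) hdv1' hdv'
            have h7 : Nat.gcd (lc c) d ∣ K := by
              rw [hK]
              apply Nat.dvd_gcd _ (Nat.gcd_dvd_left _ _)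
              rw [← Int.natCast_dvd_natCast, Int.dvd_natAbs]
              have e : 2 * (N0 : ℤ) - n = (2 * (N1 : ℤ) - n) + 2 * ((N0 : ℤ) - N1) := by ring
              rw [e]
              apply dvd_add
              · exact (Int.natCast_dvd_natCast.2 (Nat.gcd_dvd_right _ _)).trans
                  (hdv1 (n, d) (List.mem_cons_self ..))
              · exact ((Int.natCast_dvd_natCast.2 (Nat.gcd_dvd_left _ _)).trans hsub).mul_left 2
            have hd0' : 0 < d := by
              rw [Finset.mem_Icc] at hd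
              omega
            have h8 : Nat.gcd (lc c) d ≤ Nat.gcd K d :=
              Nat.le_of_dvd (Nat.gcd_pos_of_pos_right _ hd0') (Nat.dvd_gcd h7 (Nat.gcd_dvd_right _ _))
            have h9 : ((Nat.gcd (lc c) d : ℕ) : ℝ) / (d : ℝ) ≤ ((Nat.gcd K d : ℕ) : ℝ) / (d : ℝ) := by
              apply div_le_div_of_nonneg_right _ (Nat.cast_nonneg _)
              exact_mod_cast h8
            have := mul_le_mul_of_nonneg_left h9 hA0
            linarith
        have hwt : ∑ d ∈ Icc D Ts, ∑ _t ∈ F G Y Ts (k ∈ S) t' d, (((Nat.gcd K d : ℕ) : ℝ) / (d : ℝ)) ≤ R / G := by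
          have hKM' : (K.divisors.card : ℝ) ≤ M := by exact_mod_cast hKM
          unfold F
          by_cases hk : k ∈ S
          · simp only [hk, if_true]
            have h5 := hB D T0 Ts Y t' K Z hD hY hT0 h4 hK1 hKZ hTY
            refine h5.trans ?_
            rw [hR, if_pos hk, hQ]
            calc (K.divisors.card : ℝ) * (3 * (1 + Real.log Ts) / Y) ≤ M * (3 * (1 + Real.log Ts) / Y) :=
                  mul_le_mul_of_nonneg_right hKM' (by positivity)
              _ ≤ M * (3 * (1 + Real.log Ts) / Y) * G := le_mul_of_one_le_right (by positivity) hG'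
              _ = M * (3 * (G : ℝ) ^ 2 * (1 + Real.log Ts)) / Y / G := by
                  have : (G : ℝ) ≠ 0 := by positivity
                  field_simp
          · simp only [hk, if_false]
            have h5 := hA D Ts G t' K hD hG hK1
            refine h5.trans ?_
            rw [hR, if_neg hk, hQ]
            calc (K.divisors.card : ℝ) * (3 * G * (1 + Real.log Ts)) ≤ M * (3 * G * (1 + Real.log Ts)) :=
                  mul_le_mul_of_nonneg_right hKM' (by positivity)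
              _ = M * (3 * (G : ℝ) ^ 2 * (1 + Real.log Ts)) / G := by
                  have : (G : ℝ) ≠ 0 := by positivity
                  field_simp
        calc ((((Icc D Ts).biUnion fun d => (F G Y Ts (k ∈ S) t' d).biUnion fun t => E n d t).card : ℕ) : ℝ)
            ≤ ∑ d ∈ Icc D Ts, (((F G Y Ts (k ∈ S) t' d).biUnion fun t => E n d t).card : ℝ) := by
              exact_mod_cast Finset.card_biUnion_le
          _ ≤ ∑ d ∈ Icc D Ts, ∑ t ∈ F G Y Ts (k ∈ S) t' d, (((E n d t).card : ℕ) : ℝ) := by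
              refine Finset.sum_le_sum fun d _ => ?_
              exact_mod_cast Finset.card_biUnion_le
          _ ≤ ∑ d ∈ Icc D Ts, ∑ t ∈ F G Y Ts (k ∈ S) t' d, (A * (((Nat.gcd K d : ℕ) : ℝ) / (d : ℝ)) + B) :=
              Finset.sum_le_sum fun d hd => Finset.sum_le_sum fun t ht => hgcd d hd t ht
          _ = A * (∑ d ∈ Icc D Ts, ∑ _t ∈ F G Y Ts (k ∈ S) t' d, (((Nat.gcd K d : ℕ) : ℝ) / (d : ℝ))) +
                ∑ d ∈ Icc D Ts, ∑ _t ∈ F G Y Ts (k ∈ S) t' d, B := by
              rw [Finset.mul_sum, ← Finset.sum_add_distrib]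
              refine Finset.sum_congr rfl fun d _ => ?_
              rw [Finset.sum_add_distrib, Finset.mul_sum]
          _ ≤ A * (R / G) + B * (Ts : ℝ) ^ 2 := add_le_add (mul_le_mul_of_nonneg_left hwt hA0) hcB
      · have h0 : ((Icc D Ts).biUnion fun d => (F G Y Ts (k ∈ S) t' d).biUnion fun t => E n d t) = ∅ := by
          rw [Finset.eq_empty_iff_forall_notMem]
          intro N hN
          rw [Finset.mem_biUnion] at hN
          obtain ⟨d, hd, hN⟩ := hN
          rw [Finset.mem_biUnion] at hN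
          obtain ⟨t, ht, hN⟩ := hN
          exact hex ⟨d, hd, t, ht, N, hN⟩
        rw [h0, card_empty, Nat.cast_zero]
        positivity
    simp only [Finset.sum_const_zero, mul_zero, zero_add] at htime
    have hn : ((ns G c).card : ℝ) ≤ G := by exact_mod_cast ns_card G c
    have hin0 : 0 ≤ A * (R / G) + B * (Ts : ℝ) ^ 2 := by positivity
    calc ((((Icc 1 X).filter (fun N : ℕ => Typ G Z M N ∧ BB G Y Ts D S N (k + 1) c t')).card : ℕ) : ℝ)
        ≤ (((ns G c).biUnion fun n => (Icc D Ts).biUnion fun d =>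
            (F G Y Ts (k ∈ S) t' d).biUnion fun t => E n d t).card : ℝ) := by
          exact_mod_cast Finset.card_le_card hsub
      _ ≤ ∑ n ∈ ns G c, (((Icc D Ts).biUnion fun d =>
            (F G Y Ts (k ∈ S) t' d).biUnion fun t => E n d t).card : ℝ) := by
          exact_mod_cast Finset.card_biUnion_le
      _ ≤ ∑ _n ∈ ns G c, (A * (R / G) + B * (Ts : ℝ) ^ 2) := Finset.sum_le_sum fun n hn => htime n hn
      _ = ((ns G c).card : ℝ) * (A * (R / G) + B * (Ts : ℝ) ^ 2) := by rw [Finset.sum_const, nsmul_eq_mul]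
      _ ≤ (G : ℝ) * (A * (R / G) + B * (Ts : ℝ) ^ 2) := mul_le_mul_of_nonneg_right hn hin0
      _ = A * R + B * (G * (Ts : ℝ) ^ 2) := by
          have : (G : ℝ) ≠ 0 := by positivity
          field_simp
      _ = _ := by
          rw [Finset.prod_range_succ, ← hW, ← hR, hAd, hBd, pow_succ]
          ring

open Classical in
/-- **CNT'** -/
theorem t_CNT' (hB : S_WB') (hA : S_WA') : S_CNT' := by
  intro G Y T0 Ts D b X M Z hG hY hT0 hTs hD hb hM hZ hTY
  have hG' : (1 : ℝ) ≤ G := by exact_mod_cast hG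
  have hY' : (2 : ℝ) ≤ Y := by exact_mod_cast hY
  have hTs' : (1 : ℝ) ≤ Ts := by exact_mod_cast hTs
  have hM' : (1 : ℝ) ≤ M := by exact_mod_cast hM
  have hlog : 0 ≤ Real.log Ts := Real.log_nonneg hTs'
  obtain ⟨Q, hQ⟩ : ∃ Q : ℝ, Q = M * (3 * (G : ℝ) ^ 2 * (1 + Real.log Ts)) := ⟨_, rfl⟩
  rw [← hQ]
  have hQ1 : 1 ≤ Q := by
    rw [hQ]
    have h1 : 1 ≤ 3 * (G : ℝ) ^ 2 * (1 + Real.log Ts) := by
      nlinarith [one_le_pow₀ (n := 2) hG']
    nlinarith
  have hQ0 : 0 < Q := by linarith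
  set PP : Finset (Finset ℕ) := ((range (2 * b - 1)).powerset).filter (fun S => b ≤ S.card) with hPP
  obtain ⟨E, hE⟩ : ∃ E : Finset ℕ → ℕ → ℕ → ℕ → Finset ℕ, E = fun S n0 d0 t0 => (Icc 1 X).filter
      (fun N : ℕ => Typ G Z M N ∧ BB G Y Ts D S N (2 * b - 1) [(n0, d0)] (t0 + 2 * d0)) := ⟨_, rfl⟩
  have hsub : (Icc 1 X).filter (fun N : ℕ => Typ G Z M N ∧ BadRun G Y T0 Ts D (2 * b) N) ⊆
      PP.biUnion fun S => (ns G []).biUnion fun n0 => (Icc D Ts).biUnion fun d0 =>
        (Icc T0 Ts).biUnion fun t0 => E S n0 d0 t0 := by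
    intro N hN
    obtain ⟨hN1, hty, n, t, d, h1, h2, h3⟩ := Finset.mem_filter.1 hN
    set S : Finset ℕ := (range (2 * b - 1)).filter (fun k =>
      Y * (t (2 * b - 1 - 1 - k + 1) - (t (2 * b - 1 - 1 - k) + 2 * d (2 * b - 1 - 1 - k))) <
        d (2 * b - 1 - 1 - k + 1)) with hS
    have hSc : b ≤ S.card := by
      have e1 : S.card = ((range (2 * b - 1)).filter
          (fun i => Y * (t (i + 1) - (t i + 2 * d i)) < d (i + 1))).card := by
        rw [hS, Finset.card_filter, Finset.card_filter]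
        exact Finset.sum_range_reflect (fun i => if Y * (t (i + 1) - (t i + 2 * d i)) < d (i + 1)
          then 1 else 0) (2 * b - 1)
      have e2 : 2 * b ≤ 2 * ((range (2 * b - 1)).filter
          (fun i => Y * (t (i + 1) - (t i + 2 * d i)) < d (i + 1))).card := by
        convert h3
      omega
    rw [Finset.mem_biUnion]
    refine ⟨S, Finset.mem_filter.2 ⟨Finset.mem_powerset.2 (Finset.filter_subset _ _), hSc⟩, ?_⟩
    obtain ⟨a1, a2, a3, a4, a5, a6, a7⟩ := h1 0 (by omega)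
    rw [Finset.mem_biUnion]
    refine ⟨n 0, ?_, ?_⟩
    · rw [ns, Finset.mem_filter, Finset.mem_Icc]
      exact ⟨⟨by omega, a1⟩, a2, by simp⟩
    rw [Finset.mem_biUnion]
    refine ⟨d 0, ?_, ?_⟩
    · rw [Finset.mem_Icc]
      exact ⟨a5, (Nat.le_of_dvd (by omega) a6).trans a4⟩
    rw [Finset.mem_biUnion]
    refine ⟨t 0, Finset.mem_Icc.2 ⟨a3, a4⟩, ?_⟩
    rw [hE]
    refine Finset.mem_filter.2 ⟨hN1, hty, ?_⟩
    refine run_BB hT0 h1 h2 ?_ (2 * b - 1) 0 [(n 0, d 0)] (by omega) (by simp) ?_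
    · intro i k hik hk
      have := (Finset.mem_filter.1 hk).2
      have e : 2 * b - 1 - 1 - k = i := by omega
      rw [e] at this
      exact this
    · intro p hp
      rw [List.mem_singleton] at hp
      subst hp
      exact a7
  obtain ⟨W, hW⟩ : ∃ W : ℝ, W = (X : ℝ) * Q ^ (2 * b) / (Y : ℝ) ^ b +
    (G * (Ts : ℝ) ^ 2) ^ (2 * b - 1) := ⟨_, rfl⟩
  have hW0 : 0 ≤ W := by rw [hW]; positivity
  have hone : ∀ S ∈ PP, ∀ n0 ∈ ns G [], ∀ d0 ∈ Icc D Ts, ∀ t0 ∈ Icc T0 Ts,
      (((E S n0 d0 t0).card : ℕ) : ℝ) ≤ W := by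
    intro S hS n0 hn0 d0 hd0 t0 ht0
    rw [hPP, Finset.mem_filter, Finset.mem_powerset] at hS
    rw [ns, Finset.mem_filter, Finset.mem_Icc] at hn0
    rw [Finset.mem_Icc] at hd0 ht0
    have hd00 : 0 < d0 := by omega
    have h1 := claim' hB hA G Y T0 Ts D X M Z (2 * b) S hG hY hT0 hTs hD hM hZ hTY (2 * b - 1) [(n0, d0)]
      (t0 + 2 * d0) (by
        intro p hp
        rw [List.mem_singleton] at hp
        subst hp
        exact ⟨hn0.1.2, hn0.2.1, hd00⟩) (by simp only [List.length_singleton]; omega) (by omega)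
    rw [← hQ] at h1
    rw [hE]
    refine h1.trans ?_
    rw [hW]
    have h2 : ∏ i ∈ range (2 * b - 1), (if i ∈ S then Q / Y else Q) ≤ Q ^ (2 * b) / (Y : ℝ) ^ b := by
      have e1 : ∏ i ∈ range (2 * b - 1), (if i ∈ S then Q / Y else Q) =
          ∏ i ∈ range (2 * b - 1), (Q * (if i ∈ S then (1 / (Y : ℝ)) else 1)) := by
        refine Finset.prod_congr rfl fun i _ => ?_
        split_ifs
        · ring
        · ring
      have e2 : ∏ i ∈ range (2 * b - 1), (if i ∈ S then (1 / (Y : ℝ)) else 1) =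
          (1 / (Y : ℝ)) ^ S.card := by
        rw [Finset.prod_ite_mem, Finset.inter_eq_right.2 hS.1, Finset.prod_const]
      rw [e1, Finset.prod_mul_distrib, Finset.prod_const, Finset.card_range, e2]
      have e3 : Q ^ (2 * b - 1) ≤ Q ^ (2 * b) := pow_le_pow_right₀ hQ1 (by omega)
      have e4 : (1 / (Y : ℝ)) ^ S.card ≤ (1 / (Y : ℝ)) ^ b :=
        pow_le_pow_of_le_one (by positivity) (by rw [div_le_one (by linarith)]; linarith) hS.2
      calc Q ^ (2 * b - 1) * (1 / (Y : ℝ)) ^ S.card ≤ Q ^ (2 * b) * (1 / (Y : ℝ)) ^ b :=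
            mul_le_mul e3 e4 (by positivity) (by positivity)
        _ = _ := by rw [one_div, inv_pow, div_eq_mul_inv]
    have hlc : (1 : ℝ) ≤ lc [(n0, d0)] := by
      have : 1 ≤ lc [(n0, d0)] := lc_pos' (by
        intro p hp
        rw [List.mem_singleton] at hp
        subst hp
        exact hd00)
      exact_mod_cast this
    have h3 : (X : ℝ) / lc [(n0, d0)] ≤ (X : ℝ) := div_le_self (by positivity) hlc
    have h4 := mul_le_mul h3 h2 (Finset.prod_nonneg fun i _ => by split_ifs <;> positivity)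
      (by positivity)
    have h5 : (X : ℝ) * (Q ^ (2 * b) / (Y : ℝ) ^ b) = (X : ℝ) * Q ^ (2 * b) / (Y : ℝ) ^ b := by ring
    linarith
  have hPPc : (PP.card : ℝ) ≤ 4 ^ b := by
    have h1 : PP.card ≤ 2 ^ (2 * b - 1) := by
      refine (Finset.card_filter_le _ _).trans ?_
      rw [Finset.card_powerset, Finset.card_range]
    have h2 : 2 ^ (2 * b - 1) ≤ 4 ^ b := by
      calc 2 ^ (2 * b - 1) ≤ 2 ^ (2 * b) := Nat.pow_le_pow_right (by norm_num) (by omega)
        _ = 4 ^ b := by rw [pow_mul]; norm_num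
    exact_mod_cast h1.trans h2
  have hnc : ((ns G []).card : ℝ) ≤ G := by exact_mod_cast ns_card G []
  have hdc : ((Icc D Ts).card : ℝ) ≤ Ts := by
    have : (Icc D Ts).card ≤ Ts := by rw [Nat.card_Icc]; omega
    exact_mod_cast this
  have htc : ((Icc T0 Ts).card : ℝ) ≤ Ts := by
    have : (Icc T0 Ts).card ≤ Ts := by rw [Nat.card_Icc]; omega
    exact_mod_cast this
  have hmain : ((((Icc 1 X).filter (fun N : ℕ => Typ G Z M N ∧ BadRun G Y T0 Ts D (2 * b) N)).card : ℕ) : ℝ) ≤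
      4 ^ b * ((G : ℝ) * ((Ts : ℝ) * ((Ts : ℝ) * W))) := by
    calc ((((Icc 1 X).filter (fun N : ℕ => Typ G Z M N ∧ BadRun G Y T0 Ts D (2 * b) N)).card : ℕ) : ℝ)
        ≤ ((PP.biUnion fun S => (ns G []).biUnion fun n0 => (Icc D Ts).biUnion fun d0 =>
          (Icc T0 Ts).biUnion fun t0 => E S n0 d0 t0).card : ℝ) := by
          exact_mod_cast Finset.card_le_card hsub
      _ ≤ ∑ S ∈ PP, (((ns G []).biUnion fun n0 => (Icc D Ts).biUnion fun d0 =>
          (Icc T0 Ts).biUnion fun t0 => E S n0 d0 t0).card : ℝ) := by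
          exact_mod_cast Finset.card_biUnion_le
      _ ≤ ∑ S ∈ PP, ((G : ℝ) * ((Ts : ℝ) * ((Ts : ℝ) * W))) := by
          refine Finset.sum_le_sum fun S hS => ?_
          calc (((ns G []).biUnion fun n0 => (Icc D Ts).biUnion fun d0 =>
              (Icc T0 Ts).biUnion fun t0 => E S n0 d0 t0).card : ℝ)
              ≤ ∑ n0 ∈ ns G [], (((Icc D Ts).biUnion fun d0 =>
              (Icc T0 Ts).biUnion fun t0 => E S n0 d0 t0).card : ℝ) := by
                exact_mod_cast Finset.card_biUnion_le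
            _ ≤ ∑ n0 ∈ ns G [], ((Ts : ℝ) * ((Ts : ℝ) * W)) := by
                refine Finset.sum_le_sum fun n0 hn0 => ?_
                calc (((Icc D Ts).biUnion fun d0 =>
                    (Icc T0 Ts).biUnion fun t0 => E S n0 d0 t0).card : ℝ)
                    ≤ ∑ d0 ∈ Icc D Ts, (((Icc T0 Ts).biUnion fun t0 => E S n0 d0 t0).card : ℝ) := by
                      exact_mod_cast Finset.card_biUnion_le
                  _ ≤ ∑ d0 ∈ Icc D Ts, ((Ts : ℝ) * W) := by
                      refine Finset.sum_le_sum fun d0 hd0 => ?_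
                      calc (((Icc T0 Ts).biUnion fun t0 => E S n0 d0 t0).card : ℝ)
                          ≤ ∑ t0 ∈ Icc T0 Ts, (((E S n0 d0 t0).card : ℕ) : ℝ) := by
                            exact_mod_cast Finset.card_biUnion_le
                        _ ≤ ∑ t0 ∈ Icc T0 Ts, W := Finset.sum_le_sum fun t0 ht0 =>
                            hone S hS n0 hn0 d0 hd0 t0 ht0
                        _ = ((Icc T0 Ts).card : ℝ) * W := by rw [Finset.sum_const, nsmul_eq_mul]
                        _ ≤ (Ts : ℝ) * W := mul_le_mul_of_nonneg_right htc hW0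
                  _ = ((Icc D Ts).card : ℝ) * ((Ts : ℝ) * W) := by
                      rw [Finset.sum_const, nsmul_eq_mul]
                  _ ≤ (Ts : ℝ) * ((Ts : ℝ) * W) := mul_le_mul_of_nonneg_right hdc (by positivity)
            _ = ((ns G []).card : ℝ) * ((Ts : ℝ) * ((Ts : ℝ) * W)) := by
                rw [Finset.sum_const, nsmul_eq_mul]
            _ ≤ (G : ℝ) * ((Ts : ℝ) * ((Ts : ℝ) * W)) :=
                mul_le_mul_of_nonneg_right hnc (by positivity)
      _ = (PP.card : ℝ) * ((G : ℝ) * ((Ts : ℝ) * ((Ts : ℝ) * W))) := by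
          rw [Finset.sum_const, nsmul_eq_mul]
      _ ≤ 4 ^ b * ((G : ℝ) * ((Ts : ℝ) * ((Ts : ℝ) * W))) :=
          mul_le_mul_of_nonneg_right hPPc (by positivity)
  refine hmain.trans (le_of_eq ?_)
  have hp : (G * (Ts : ℝ) ^ 2) ^ (2 * b) = (G * (Ts : ℝ) ^ 2) ^ (2 * b - 1) * (G * (Ts : ℝ) ^ 2) := by
    rw [← pow_succ]
    congr 1
    omega
  rw [hp, hW]
  ring

end Pool.Agent.L7h79.GR
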