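import Pool.Agent.L7h79.GR.Sub

/-!
# Almost all `N` have a slow descent: the parameters
-/

set_option autoImplicit false

namespace Pool.Agent.L7h79.GR

open Finset Filter Topology Pool.Agent.N333.GR

theorem cube_le (h : ℕ) (hh : 40 ≤ h) : 30000 * h ^ 3 ≤ 2 ^ h := by
  induction h, hh using Nat.le_induction with
  | base => norm_num
  | succ n hn ih =>
    have : (n + 1) ^ 3 ≤ 2 * n ^ 3 := by
      have e : (n + 1) ^ 3 = n ^ 3 + 3 * n ^ 2 + 3 * n + 1 := by ring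
      have e3 : n ^ 3 = n * n ^ 2 := by ring
      have e2 : n ^ 2 = n * n := by ring
      have : 40 * n ^ 2 ≤ n ^ 3 := by rw [e3]; exact Nat.mul_le_mul_right _ hn
      nlinarith
    calc 30000 * (n + 1) ^ 3 ≤ 30000 * (2 * n ^ 3) := by gcongr
      _ = 2 * (30000 * n ^ 3) := by ring
      _ ≤ 2 * 2 ^ n := by gcongr
      _ = 2 ^ (n + 1) := by ring

section par

variable {h s m y u : ℕ}

theorem u_le (hh : 40 ≤ h) (hs : h ≤ s) (hy : y = 6 * (s + 3 * h) + 60 * h) (hu : u = 1 + h + y) :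
    u ≤ 86 * s := by omega

theorem m_le (hh : 40 ≤ h) (hm : m = 6 * h + 4) : m ≤ 10 * h := by omega

theorem mu_le (hh : 40 ≤ h) (hs : h ≤ s) (hm : m = 6 * h + 4) (hy : y = 6 * (s + 3 * h) + 60 * h)
    (hu : u = 1 + h + y) : 10 * m * u ≤ 8600 * (h * s) := by
  calc 10 * m * u ≤ 10 * (10 * h) * (86 * s) := by
        gcongr
        · exact m_le hh hm
        · exact u_le hh hs hy hu
    _ = 8600 * (h * s) := by ring

theorem log_bound' (hh : 40 ≤ h) (hs : h ≤ s) (hs2 : s ≤ h ^ 2) (hm : m = 6 * h + 4)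
    (hy : y = 6 * (s + 3 * h) + 60 * h) (hu : u = 1 + h + y) : 3 * (1 + 10 * m * u) ≤ 2 ^ h := by
  have h1 := mu_le hh hs hm hy hu
  have h2 : h * s ≤ h ^ 3 := by
    calc h * s ≤ h * h ^ 2 := Nat.mul_le_mul_left _ hs2
      _ = h ^ 3 := by ring
  have h3 : 1 ≤ h ^ 3 := Nat.one_le_pow _ _ (by omega)
  have h4 := cube_le h hh
  omega

theorem exp_main' (hh : 40 ≤ h) (hm : m = 6 * h + 4)
    (hy : y = 6 * (s + 3 * h) + 60 * h) (hu : u = 1 + h + y) :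
    64 * m + (h + 20 * m * u) + (s + 3 * h + 3 * h) * (64 * m) + (s + 3 * h) ≤ 32 * m * y := by
  have hm1 : 10 ≤ m := by omega
  rw [hu]
  have e1 : 32 * m * y = 20 * m * y + 12 * m * y := by ring
  have e2 : 12 * m * y = 72 * (m * (s + 3 * h)) + 720 * (m * h) := by rw [hy]; ring
  have e3 : 20 * m * (1 + h + y) = 20 * m + 20 * (m * h) + 20 * m * y := by ring
  have e4 : (s + 3 * h + 3 * h) * (64 * m) = 64 * (m * (s + 3 * h)) + 192 * (m * h) := by ring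
  have e5 : m ≤ m * h := Nat.le_mul_of_pos_right _ (by omega)
  have e6 : h ≤ m * h := Nat.le_mul_of_pos_left _ (by omega)
  have e7 : s + 3 * h ≤ m * (s + 3 * h) := Nat.le_mul_of_pos_left _ (by omega)
  rw [e1, e2, e3, e4]
  omega

theorem exp_tuples' (hh : 40 ≤ h) (hs : h ≤ s) (hm : m = 6 * h + 4)
    (hy : y = 6 * (s + 3 * h) + 60 * h) (hu : u = 1 + h + y) :
    64 * m + (h + 20 * m * u) * (64 * m) ≤ 20000000 * (h ^ 2 * s) := by
  have h1 := m_le hh hm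
  have h2 := u_le hh hs hy hu
  have h3 : (h + 20 * m * u) * (64 * m) ≤ (h + 20 * (10 * h) * (86 * s)) * (64 * (10 * h)) := by gcongr
  have h4 : 64 * m ≤ 64 * (10 * h) := by gcongr
  have e : (h + 20 * (10 * h) * (86 * s)) * (64 * (10 * h)) =
      640 * h ^ 2 + 11008000 * (h ^ 2 * s) := by ring
  rw [e] at h3
  have h5 : h ^ 2 ≤ h ^ 2 * s := Nat.le_mul_of_pos_right _ (by omega)
  have h6 : h ≤ h ^ 2 := by nlinarith
  omega

open Classical in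
theorem cnt_bound' (hCNT : S_CNT') (X k : ℕ) (hh : 40 ≤ h) (hs : h ≤ s) (hs2 : s ≤ h ^ 2)
    (hm : m = 6 * h + 4) (hy : y = 6 * (s + 3 * h) + 60 * h) (hu : u = 1 + h + y) (hk : k < 6 * h) :
    (((Icc 1 X).filter (fun N : ℕ => Typ (2 ^ h) (2 ^ (64 * m * h)) (2 ^ (s + 3 * h)) N ∧
      BadRun (2 ^ h) (2 ^ y) (2 ^ (8 * m * u))
      (2 ^ (10 * m * u)) (2 ^ ((8 * m - 2 - k) * u)) (64 * m) N)).card : ℝ) ≤
      (X : ℝ) / 2 ^ (s + 3 * h) + 2 ^ (20000000 * (h ^ 2 * s)) := by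
  have hcond : 2 ^ (64 * m * h) * ((2 ^ (10 * m * u)) ^ 2 * 2 ^ y) ≤
      2 ^ (8 * m * u) * (2 ^ ((8 * m - 2 - k) * u)) ^ 2 := by
    rw [← pow_mul, ← pow_mul, ← pow_add, ← pow_add, ← pow_add]
    apply Nat.pow_le_pow_right (by norm_num)
    have h1 : 7 * m + 3 ≤ 8 * m - 2 - k := by omega
    have h2 : (7 * m + 3) * u ≤ (8 * m - 2 - k) * u := Nat.mul_le_mul_right _ h1
    have h3 : 32 * h ≤ u := by omega
    have h4 : 64 * m * h ≤ 2 * m * u := by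
      calc 64 * m * h = 2 * m * (32 * h) := by ring
        _ ≤ 2 * m * u := Nat.mul_le_mul_left _ h3
    have h5 : y ≤ u := by omega
    nlinarith
  have h0 := hCNT (2 ^ h) (2 ^ y) (2 ^ (8 * m * u)) (2 ^ (10 * m * u))
    (2 ^ ((8 * m - 2 - k) * u)) (32 * m) X (2 ^ (s + 3 * h)) (2 ^ (64 * m * h)) Nat.one_le_two_pow
    (by
      calc 2 = 2 ^ 1 := by norm_num
        _ ≤ 2 ^ y := Nat.pow_le_pow_right (by norm_num) (by omega))
    Nat.one_le_two_pow Nat.one_le_two_pow Nat.one_le_two_pow (by omega) Nat.one_le_two_pow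
    (by
      rw [← pow_mul]
      apply Nat.pow_le_pow_right (by norm_num)
      apply le_of_eq
      ring) hcond
  rw [show 2 * (32 * m) = 64 * m by ring] at h0
  refine h0.trans ?_
  have hlog : (3 : ℝ) * ((2 ^ h : ℕ) : ℝ) ^ 2 *
      (1 + Real.log ((2 ^ (10 * m * u) : ℕ) : ℝ)) ≤ 2 ^ (3 * h) := by
    have h1 : Real.log ((2 ^ (10 * m * u) : ℕ) : ℝ) ≤ (10 * m * u : ℕ) := by
      push_cast
      rw [Real.log_pow]
      have : Real.log 2 ≤ 1 := by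
        have := Real.log_two_lt_d9
        linarith
      push_cast
      have h3 : (0 : ℝ) ≤ 10 * (m : ℝ) * (u : ℝ) := by positivity
      nlinarith
    have h2 : (3 : ℝ) * (1 + (10 * m * u : ℕ)) ≤ 2 ^ h := by
      exact_mod_cast log_bound' hh hs hs2 hm hy hu
    have h3 : (3 : ℝ) * (1 + Real.log ((2 ^ (10 * m * u) : ℕ) : ℝ)) ≤ 2 ^ h := by linarith
    calc (3 : ℝ) * ((2 ^ h : ℕ) : ℝ) ^ 2 * (1 + Real.log ((2 ^ (10 * m * u) : ℕ) : ℝ))
        = ((2 ^ h : ℕ) : ℝ) ^ 2 * (3 * (1 + Real.log ((2 ^ (10 * m * u) : ℕ) : ℝ))) := by ring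
      _ ≤ ((2 ^ h : ℕ) : ℝ) ^ 2 * 2 ^ h := by gcongr
      _ = 2 ^ (3 * h) := by
        push_cast
        ring
  have hlog0 : 0 ≤ (3 : ℝ) * ((2 ^ h : ℕ) : ℝ) ^ 2 *
      (1 + Real.log ((2 ^ (10 * m * u) : ℕ) : ℝ)) := by
    have : 0 ≤ Real.log ((2 ^ (10 * m * u) : ℕ) : ℝ) :=
      Real.log_nonneg (by exact_mod_cast Nat.one_le_two_pow)
    positivity
  have hX : (0 : ℝ) ≤ X := Nat.cast_nonneg X
  have hMlog : ((2 ^ (s + 3 * h) : ℕ) : ℝ) * (3 * ((2 ^ h : ℕ) : ℝ) ^ 2 *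
      (1 + Real.log ((2 ^ (10 * m * u) : ℕ) : ℝ))) ≤ 2 ^ (s + 3 * h + 3 * h) := by
    rw [pow_add (2 : ℝ) (s + 3 * h)]
    push_cast at hlog ⊢
    exact mul_le_mul_of_nonneg_left hlog (by positivity)
  have e1 : (4 : ℝ) ^ (32 * m) * ((X : ℝ) *
      (((2 ^ h : ℕ) : ℝ) * ((2 ^ (10 * m * u) : ℕ) : ℝ) ^ 2) *
      (((2 ^ (s + 3 * h) : ℕ) : ℝ) * (3 * ((2 ^ h : ℕ) : ℝ) ^ 2 *
        (1 + Real.log ((2 ^ (10 * m * u) : ℕ) : ℝ)))) ^ (64 * m) / ((2 ^ y : ℕ) : ℝ) ^ (32 * m)) ≤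
      (4 : ℝ) ^ (32 * m) * ((X : ℝ) *
      (((2 ^ h : ℕ) : ℝ) * ((2 ^ (10 * m * u) : ℕ) : ℝ) ^ 2) *
      (2 ^ (s + 3 * h + 3 * h)) ^ (64 * m) / ((2 ^ y : ℕ) : ℝ) ^ (32 * m)) := by
    gcongr
  have e2 : (4 : ℝ) ^ (32 * m) * ((X : ℝ) *
      (((2 ^ h : ℕ) : ℝ) * ((2 ^ (10 * m * u) : ℕ) : ℝ) ^ 2) *
      (2 ^ (s + 3 * h + 3 * h)) ^ (64 * m) / ((2 ^ y : ℕ) : ℝ) ^ (32 * m)) =
      (X : ℝ) * 2 ^ (64 * m + (h + 20 * m * u) + (s + 3 * h + 3 * h) * (64 * m)) /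
        2 ^ (32 * m * y) := by
    push_cast
    rw [show (4 : ℝ) = 2 ^ 2 by norm_num]
    simp only [← pow_mul, ← pow_add]
    rw [← mul_div_assoc]
    congr 1
    · rw [show (2 : ℝ) ^ (2 * (32 * m)) * ((X : ℝ) *
        2 ^ (h + 10 * m * u * 2) * 2 ^ ((s + 3 * h + 3 * h) * (64 * m))) =
        (X : ℝ) * (2 ^ (2 * (32 * m)) *
        2 ^ (h + 10 * m * u * 2) * 2 ^ ((s + 3 * h + 3 * h) * (64 * m))) by ring]
      congr 1
      rw [← pow_add, ← pow_add]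
      congr 1
      ring
    · congr 1
      ring
  have e3 : (X : ℝ) * 2 ^ (64 * m + (h + 20 * m * u) + (s + 3 * h + 3 * h) * (64 * m)) /
        2 ^ (32 * m * y) ≤ (X : ℝ) / 2 ^ (s + 3 * h) := by
    rw [div_le_div_iff₀ (by positivity) (by positivity), mul_assoc, ← pow_add]
    apply mul_le_mul_of_nonneg_left _ hX
    apply pow_le_pow_right₀ (by norm_num)
    exact exp_main' hh hm hy hu
  have e4 : (4 : ℝ) ^ (32 * m) * (((2 ^ h : ℕ) : ℝ) *
      ((2 ^ (10 * m * u) : ℕ) : ℝ) ^ 2) ^ (64 * m) ≤ 2 ^ (20000000 * (h ^ 2 * s)) := by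
    have e5 : (4 : ℝ) ^ (32 * m) * (((2 ^ h : ℕ) : ℝ) *
      ((2 ^ (10 * m * u) : ℕ) : ℝ) ^ 2) ^ (64 * m) =
      2 ^ (64 * m + (h + 20 * m * u) * (64 * m)) := by
      push_cast
      rw [show (4 : ℝ) = 2 ^ 2 by norm_num]
      simp only [← pow_mul, ← pow_add]
      congr 1
      ring
    rw [e5]
    apply pow_le_pow_right₀ (by norm_num)
    exact exp_tuples' hh hs hm hy hu
  rw [mul_add]
  exact add_le_add (e1.trans (e2.le.trans e3)) e4

end par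

open Classical in
/-- **the main theorem, with explicit constants** -/
theorem main1' (hREC : S_REC) (hBIG : S_BIG) (hRUN : S_RUN) (hCNT : S_CNT') (hTYP : S_TYP)
    (h s X : ℕ) (hh : 40 ≤ h) (hs : h ≤ s) (hs2 : s ≤ h ^ 2) (hX : 2 ^ (100000000 * (h ^ 2 * s)) ≤ X) :
    (((Icc 3 X).filter (fun N : ℕ => ¬ (2 ^ h < g N ∧ ∀ n, 1 ≤ n → n ≤ 2 ^ h →
      (N : ℤ) - 2 ^ (10000 * (h * s)) ≤ a N n))).card : ℝ) ≤ (X : ℝ) / 2 ^ s := by
  obtain ⟨m, hm⟩ : ∃ m, m = 6 * h + 4 := ⟨_, rfl⟩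
  obtain ⟨y, hy⟩ : ∃ y, y = 6 * (s + 3 * h) + 60 * h := ⟨_, rfl⟩
  obtain ⟨u, hu⟩ : ∃ u, u = 1 + h + y := ⟨_, rfl⟩
  obtain ⟨Tp, hTp⟩ : ∃ Tp : Finset ℕ, Tp = (Icc 1 X).filter
    (fun N : ℕ => ¬ Typ (2 ^ h) (2 ^ (64 * m * h)) (2 ^ (s + 3 * h)) N) := ⟨_, rfl⟩
  obtain ⟨Bk, hBk⟩ : ∃ Bk : ℕ → Finset ℕ, Bk = fun k => (Icc 1 X).filter
    (fun N : ℕ => Typ (2 ^ h) (2 ^ (64 * m * h)) (2 ^ (s + 3 * h)) N ∧
      BadRun (2 ^ h) (2 ^ y) (2 ^ (8 * m * u))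
      (2 ^ (10 * m * u)) (2 ^ ((8 * m - 2 - k) * u)) (64 * m) N) := ⟨_, rfl⟩
  have hmu := mu_le hh hs hm hy hu
  have hsub : (Icc 3 X).filter (fun N : ℕ => ¬ (2 ^ h < g N ∧ ∀ n, 1 ≤ n → n ≤ 2 ^ h →
      (N : ℤ) - 2 ^ (10000 * (h * s)) ≤ a N n)) ⊆ range (2 ^ (10 * m * u)) ∪
      (Tp ∪ (range (6 * h)).biUnion Bk) := by
    intro N hN
    rw [mem_filter, mem_Icc] at hN
    rw [mem_union, mem_range, mem_union]
    by_cases h1 : N < 2 ^ (10 * m * u)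
    · exact Or.inl h1
    · right
      push Not at h1
      by_cases h2 : Typ (2 ^ h) (2 ^ (64 * m * h)) (2 ^ (s + 3 * h)) N
      · right
        obtain ⟨k, hk, hk2⟩ := exc_sub' hREC hBIG hRUN h N m y u (by omega) hm hu (by omega) hN.1.1 h1
          (fun hcon => hN.2 ⟨hcon.1, fun n hn1 hn2 => le_trans (by
            have : (2 : ℤ) ^ (10 * m * u) ≤ 2 ^ (10000 * (h * s)) :=
              pow_le_pow_right₀ (by norm_num) (by omega)
            linarith) (hcon.2 n hn1 hn2)⟩)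
        rw [mem_biUnion]
        refine ⟨k, mem_range.2 hk, ?_⟩
        rw [hBk, mem_filter, mem_Icc]
        exact ⟨⟨by omega, hN.1.2⟩, h2, hk2⟩
      · left
        rw [hTp, mem_filter, mem_Icc]
        exact ⟨⟨by omega, hN.1.2⟩, h2⟩
  have h1 := (card_le_card hsub).trans ((card_union_le _ _).trans
    (Nat.add_le_add_left ((card_union_le _ _).trans (Nat.add_le_add_left card_biUnion_le _)) _))
  rw [card_range] at h1
  have h1' : (((Icc 3 X).filter (fun N : ℕ => ¬ (2 ^ h < g N ∧ ∀ n, 1 ≤ n → n ≤ 2 ^ h →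
      (N : ℤ) - 2 ^ (10000 * (h * s)) ≤ a N n))).card : ℝ) ≤
      2 ^ (10 * m * u) + ((Tp.card : ℝ) + ∑ k ∈ range (6 * h), ((Bk k).card : ℝ)) := by
    exact_mod_cast h1
  refine h1'.trans ?_
  have hX0 : (0 : ℝ) ≤ X := Nat.cast_nonneg X
  have hXR : (2 : ℝ) ^ (100000000 * (h ^ 2 * s)) ≤ X := by exact_mod_cast hX
  -- the sizes of the exponents
  have f1 : h * s ≤ h ^ 2 * s := by
    rw [pow_two, mul_assoc]
    exact Nat.le_mul_of_pos_left _ (by omega)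
  have f2 : s ≤ h * s := Nat.le_mul_of_pos_left _ (by omega)
  have hml := m_le hh hm
  have f3 : m * h ≤ 10 * (h * s) := by
    calc m * h ≤ (10 * h) * s := Nat.mul_le_mul hml hs
      _ = 10 * (h * s) := by ring
  have hpow : ∀ e : ℕ, e ≤ 30000000 * (h ^ 2 * s) → (2 : ℝ) ^ e ≤ (X : ℝ) / 2 ^ (s + 3) := by
    intro e he
    rw [le_div_iff₀ (by positivity), ← pow_add]
    refine (pow_le_pow_right₀ (by norm_num) ?_).trans hXR
    omega
  have h6h : (6 * h : ℝ) ≤ 2 ^ h := by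
    have h3 := cube_le h hh
    have h4 : h ≤ h ^ 3 := by
      calc h = h ^ 1 := (pow_one h).symm
        _ ≤ h ^ 3 := Nat.pow_le_pow_right (by omega) (by norm_num)
    have : 6 * h ≤ 2 ^ h := by omega
    exact_mod_cast this
  -- the first term
  have t1 : (2 : ℝ) ^ (10 * m * u) ≤ (X : ℝ) / 2 ^ (s + 3) := hpow _ (by omega)
  -- the numbers which are not typical
  have t2 : (Tp.card : ℝ) ≤ 2 * ((X : ℝ) / 2 ^ (s + 3)) := by
    have h2 := hTYP (2 ^ h) (2 ^ (64 * m * h)) (2 ^ (s + 3 * h)) X Nat.one_le_two_pow Nat.one_le_two_pow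
      Nat.one_le_two_pow
    rw [hTp]
    refine h2.trans ?_
    have hl : Real.log ((2 ^ (64 * m * h) : ℕ) : ℝ) ≤ ((64 * m * h : ℕ) : ℝ) := by
      push_cast
      rw [Real.log_pow]
      have : Real.log 2 ≤ 1 := by
        have := Real.log_two_lt_d9
        linarith
      push_cast
      have h3 : (0 : ℝ) ≤ 64 * (m : ℝ) * (h : ℝ) := by positivity
      nlinarith
    have hl2 : (1 : ℝ) + Real.log ((2 ^ (64 * m * h) : ℕ) : ℝ) ≤ 2 ^ h := by
      have h3 : 1 + 64 * m * h ≤ 2 ^ h := by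
        have h4 := cube_le h hh
        have h5 : 64 * m * h ≤ 640 * h ^ 2 := by
          calc 64 * m * h ≤ 64 * (10 * h) * h := by gcongr
            _ = 640 * h ^ 2 := by ring
        have h6 : h ^ 2 ≤ h ^ 3 := Nat.pow_le_pow_right (by omega) (by norm_num)
        have h7 : 1 ≤ h ^ 3 := Nat.one_le_pow _ _ (by omega)
        omega
      have h4 : (1 : ℝ) + ((64 * m * h : ℕ) : ℝ) ≤ 2 ^ h := by exact_mod_cast h3
      linarith
    have e1 : ((2 ^ h : ℕ) : ℝ) * ((X : ℝ) * (1 + Real.log ((2 ^ (64 * m * h) : ℕ) : ℝ)) +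
        ((2 ^ (64 * m * h) : ℕ) : ℝ)) / ((2 ^ (s + 3 * h) : ℕ) : ℝ) ≤
        (2 ^ h * (X * 2 ^ h) + 2 ^ h * 2 ^ (64 * m * h)) / 2 ^ (s + 3 * h) := by
      push_cast at hl2 ⊢
      apply div_le_div_of_nonneg_right _ (by positivity)
      rw [← mul_add]
      apply mul_le_mul_of_nonneg_left _ (by positivity)
      exact add_le_add (mul_le_mul_of_nonneg_left hl2 hX0) le_rfl
    refine e1.trans ?_
    rw [add_div]
    have e2 : (2 : ℝ) ^ h * (X * 2 ^ h) / 2 ^ (s + 3 * h) ≤ (X : ℝ) / 2 ^ (s + 3) := by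
      rw [div_le_div_iff₀ (by positivity) (by positivity)]
      have e : (2 : ℝ) ^ h * (X * 2 ^ h) * 2 ^ (s + 3) = X * 2 ^ (h + h + (s + 3)) := by
        rw [pow_add, pow_add]; ring
      rw [e]
      apply mul_le_mul_of_nonneg_left _ hX0
      apply pow_le_pow_right₀ (by norm_num)
      omega
    have e3 : (2 : ℝ) ^ h * 2 ^ (64 * m * h) / 2 ^ (s + 3 * h) ≤ (X : ℝ) / 2 ^ (s + 3) := by
      refine (div_le_self (by positivity) (one_le_pow₀ (by norm_num))).trans ?_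
      rw [← pow_add]
      apply hpow
      have : 64 * m * h = 64 * (m * h) := by ring
      omega
    linarith
  -- the bad runs
  have t3 : ∑ k ∈ range (6 * h), ((Bk k).card : ℝ) ≤ 2 * ((X : ℝ) / 2 ^ (s + 3)) := by
    calc ∑ k ∈ range (6 * h), ((Bk k).card : ℝ)
        ≤ ∑ k ∈ range (6 * h), ((X : ℝ) / 2 ^ (s + 3 * h) + 2 ^ (20000000 * (h ^ 2 * s))) := by
          refine sum_le_sum fun k hk => ?_
          rw [hBk]
          exact cnt_bound' hCNT X k hh hs hs2 hm hy hu (mem_range.1 hk)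
      _ = 6 * h * ((X : ℝ) / 2 ^ (s + 3 * h) + 2 ^ (20000000 * (h ^ 2 * s))) := by
          rw [sum_const, card_range, nsmul_eq_mul]
          push_cast
          ring
      _ ≤ 2 ^ h * ((X : ℝ) / 2 ^ (s + 3 * h) + 2 ^ (20000000 * (h ^ 2 * s))) := by gcongr
      _ ≤ 2 * ((X : ℝ) / 2 ^ (s + 3)) := by
          rw [mul_add]
          have e1 : (2 : ℝ) ^ h * ((X : ℝ) / 2 ^ (s + 3 * h)) ≤ (X : ℝ) / 2 ^ (s + 3) := by
            rw [← mul_div_assoc, div_le_div_iff₀ (by positivity) (by positivity)]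
            have e : (2 : ℝ) ^ h * X * 2 ^ (s + 3) = X * 2 ^ (h + (s + 3)) := by
              rw [pow_add]; ring
            rw [e]
            apply mul_le_mul_of_nonneg_left _ hX0
            apply pow_le_pow_right₀ (by norm_num)
            omega
          have e2 : (2 : ℝ) ^ h * 2 ^ (20000000 * (h ^ 2 * s)) ≤ (X : ℝ) / 2 ^ (s + 3) := by
            rw [← pow_add]
            apply hpow
            omega
          linarith
  have t4 : (X : ℝ) / 2 ^ (s + 3) = (X : ℝ) / 2 ^ s / 8 := by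
    rw [pow_add, div_div]
    norm_num
  have t5 : 0 ≤ (X : ℝ) / 2 ^ s := by positivity
  rw [t4] at t1 t2 t3
  linarith

end Pool.Agent.L7h79.GR
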