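import Pool.Agent.L7h79.GR.Fin

/-!
# Almost all `N` have a slow descent: the logarithmic form
-/

set_option autoImplicit false

namespace Pool.Agent.L7h79.GR

open Finset Filter Topology Pool.Agent.N333.GR

/-- the descent for the parameter `N` is slow, with the constants `c` and `D` -/
def Slow3 (c D : ℝ) (N : ℕ) : Prop :=
  Real.exp (c * Real.log N ^ (1 / 3 : ℝ)) ≤ g N ∧ ∀ n : ℕ, 1 ≤ n → (n : ℝ) ≤ Real.exp (c * Real.log N ^ (1 / 3 : ℝ)) →
    (N : ℝ) - Real.exp (D * Real.log N ^ (2 / 3 : ℝ)) ≤ a N n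

open Classical in
theorem log_form (C : ℕ) (hmain : ∀ h s X : ℕ, C ≤ h → h ≤ s → s ≤ h ^ 2 → 2 ^ (C * (h ^ 2 * s)) ≤ X →
    (((Icc 3 X).filter (fun N : ℕ => ¬ (2 ^ h < g N ∧ ∀ n, 1 ≤ n → n ≤ 2 ^ h →
      (N : ℤ) - 2 ^ (C * (h * s)) ≤ a N n))).card : ℝ) ≤ (X : ℝ) / 2 ^ s)
    (B : ℝ) (hB : 1 ≤ B) : ∃ c D : ℝ, 0 < c ∧ 0 < D ∧ ∀ᶠ X : ℕ in atTop,
      (((Icc 3 X).filter (fun N : ℕ => ¬ Slow3 c D N)).card : ℝ) ≤
        (X : ℝ) * Real.exp (-(B * Real.log X ^ (1 / 3 : ℝ))) := by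
  -- the constants
  obtain ⟨C₁, hC₁, hC₁'⟩ : ∃ C₁ : ℕ, 1 ≤ C₁ ∧ C ≤ C₁ ^ 3 := by
    refine ⟨C + 1, by omega, ?_⟩
    calc C ≤ C + 1 := by omega
      _ = (C + 1) ^ 1 := (pow_one _).symm
      _ ≤ (C + 1) ^ 3 := Nat.pow_le_pow_right (by omega) (by norm_num)
  obtain ⟨K, hK⟩ : ∃ K : ℕ, 8 * B * C₁ ≤ K := exists_nat_ge _
  have hC1 : (1 : ℝ) ≤ C₁ := by exact_mod_cast hC₁
  have hC0 : (0 : ℝ) < C₁ := by linarith
  have hCC : (C : ℝ) ≤ (C₁ : ℝ) ^ 3 := by exact_mod_cast hC₁'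
  have hK8 : (8 : ℝ) ≤ K := by
    have : (8 : ℝ) * 1 * 1 ≤ 8 * B * C₁ := by gcongr
    linarith
  have hK0 : (0 : ℝ) < K := by linarith
  have hK1 : 1 ≤ K := by
    have : (1 : ℝ) ≤ K := by linarith
    exact_mod_cast this
  refine ⟨1 / (4 * C₁ * K), 4 * C₁ * K, by positivity, by positivity, ?_⟩
  -- large X
  have hlim : Tendsto (fun X : ℕ => Real.log X ^ (1 / 3 : ℝ)) atTop atTop :=
    (tendsto_rpow_atTop (by norm_num)).comp (Real.tendsto_log_atTop.comp tendsto_natCast_atTop_atTop)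
  filter_upwards [hlim.eventually_ge_atTop ((C₁ : ℝ) * K * (C + K ^ 3 + 2) + 4 * B + 4), eventually_ge_atTop 1]
    with X hX hX1
  obtain ⟨l, hl⟩ : ∃ l : ℝ, l = Real.log X ^ (1 / 3 : ℝ) := ⟨_, rfl⟩
  rw [← hl] at hX ⊢
  have hXr : (1 : ℝ) ≤ X := by exact_mod_cast hX1
  have hX0 : (0 : ℝ) < X := by linarith
  have hL0 : 0 ≤ Real.log X := Real.log_nonneg hXr
  have hl3 : l ^ 3 = Real.log X := by
    rw [hl, ← Real.rpow_natCast, ← Real.rpow_mul hL0]
    norm_num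
  have hXe : (X : ℝ) = Real.exp (l ^ 3) := by rw [hl3, Real.exp_log hX0]
  have hCK0 : (0 : ℝ) < C₁ * K := by positivity
  have hl1 : (C₁ : ℝ) * K * (C + K ^ 3 + 2) ≤ l := by linarith
  have hlB : 4 * B + 4 ≤ l := by
    have : (0 : ℝ) ≤ (C₁ : ℝ) * K * (C + K ^ 3 + 2) := by positivity
    linarith
  have hl0 : 0 < l := by linarith
  obtain ⟨R, hR⟩ : ∃ R : ℝ, R = l / (C₁ * K) := ⟨_, rfl⟩
  have hR1 : (C : ℝ) + K ^ 3 + 2 ≤ R := by
    rw [hR, le_div_iff₀ hCK0]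
    linarith
  have hR0 : 0 ≤ R := by
    have : (0 : ℝ) ≤ (C : ℝ) + K ^ 3 + 2 := by positivity
    linarith
  have hRl : C₁ * K * R = l := by
    rw [hR]
    field_simp
  obtain ⟨h, hh⟩ : ∃ h : ℕ, h = ⌊R⌋₊ := ⟨_, rfl⟩
  have hhR : (h : ℝ) ≤ R := by rw [hh]; exact Nat.floor_le hR0
  have hRh : R < (h : ℝ) + 1 := by rw [hh]; exact Nat.lt_floor_add_one _
  have hhC : (C : ℝ) + K ^ 3 + 1 ≤ h := by linarith
  have hhalf : R / 2 ≤ h := by
    have : (0 : ℝ) ≤ (C : ℝ) + K ^ 3 := by positivity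
    linarith
  have hhC' : C + K ^ 3 + 1 ≤ h := by exact_mod_cast hhC
  obtain ⟨s, hs⟩ : ∃ s : ℕ, s = K ^ 3 * h := ⟨_, rfl⟩
  have hsr : (s : ℝ) = (K : ℝ) ^ 3 * h := by rw [hs]; push_cast; rfl
  have hs1 : h ≤ s := by rw [hs]; exact Nat.le_mul_of_pos_left _ (by positivity)
  have hs2 : s ≤ h ^ 2 := by
    rw [hs, pow_two]
    exact Nat.mul_le_mul_right _ (by omega)
  have hlog2 : (1 / 2 : ℝ) ≤ Real.log 2 := by have := Real.log_two_gt_d9; linarith
  have hlog2' : Real.log 2 ≤ 1 := by have := Real.log_two_lt_d9; linarith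
  have hpow : ∀ k : ℕ, ((2 ^ k : ℕ) : ℝ) = Real.exp (k * Real.log 2) := by
    intro k
    rw [← Real.log_pow, Real.exp_log (by positivity)]
    push_cast
    rfl
  have hX2 : 2 ^ (C * (h ^ 2 * s)) ≤ X := by
    have h1 : ((2 ^ (C * (h ^ 2 * s)) : ℕ) : ℝ) ≤ X := by
      rw [hpow, hXe]
      apply Real.exp_le_exp.2
      have h2 : ((C * (h ^ 2 * s) : ℕ) : ℝ) ≤ l ^ 3 := by
        push_cast
        rw [hsr, ← hRl]
        calc (C : ℝ) * ((h : ℝ) ^ 2 * (K ^ 3 * h)) ≤ (C₁ : ℝ) ^ 3 * (R ^ 2 * (K ^ 3 * R)) := by gcongr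
          _ = (C₁ * K * R) ^ 3 := by ring
      calc ((C * (h ^ 2 * s) : ℕ) : ℝ) * Real.log 2 ≤ l ^ 3 * 1 :=
            mul_le_mul h2 hlog2' (by linarith) (by positivity)
        _ = l ^ 3 := mul_one _
    exact_mod_cast h1
  have hcount := hmain h s X (by omega) hs1 hs2 hX2
  -- the exceptions
  have hsub : (Icc 3 X).filter (fun N : ℕ => ¬ Slow3 (1 / (4 * C₁ * K)) (4 * C₁ * K) N) ⊆
      (Icc 1 (Nat.sqrt X)) ∪ (Icc 3 X).filter (fun N : ℕ => ¬ (2 ^ h < g N ∧ ∀ n, 1 ≤ n → n ≤ 2 ^ h →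
      (N : ℤ) - 2 ^ (C * (h * s)) ≤ a N n)) := by
    intro N hN
    rw [mem_filter, mem_Icc] at hN
    obtain ⟨⟨hN3, hNX⟩, hbad⟩ := hN
    rw [mem_union, mem_Icc, mem_filter, mem_Icc]
    by_cases hsq : N ≤ Nat.sqrt X
    · exact Or.inl ⟨by omega, hsq⟩
    · right
      refine ⟨⟨hN3, hNX⟩, fun hgood => hbad ?_⟩
      push Not at hsq
      have hN0 : (0 : ℝ) < N := by exact_mod_cast (by omega : 0 < N)
      have hN1 : (1 : ℝ) ≤ N := by exact_mod_cast (by omega : 1 ≤ N)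
      have hNN : X < N * N := Nat.sqrt_lt.1 hsq
      obtain ⟨v, hv⟩ : ∃ v : ℝ, v = Real.log N ^ (1 / 3 : ℝ) := ⟨_, rfl⟩
      have hlN0 : 0 ≤ Real.log N := Real.log_nonneg hN1
      have hv0 : 0 ≤ v := by rw [hv]; positivity
      have hv3 : v ^ 3 = Real.log N := by
        rw [hv, ← Real.rpow_natCast, ← Real.rpow_mul hlN0]
        norm_num
      have hv2 : v ^ 2 = Real.log N ^ (2 / 3 : ℝ) := by
        rw [hv, ← Real.rpow_natCast, ← Real.rpow_mul hlN0]
        norm_num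
      have hvl : v ≤ l := by
        have h1 : v ^ 3 ≤ l ^ 3 := by
          rw [hv3, hl3]
          exact Real.log_le_log hN0 (by exact_mod_cast hNX)
        exact le_of_pow_le_pow_left₀ (by norm_num) hl0.le h1
      have hlv : l ≤ 2 * v := by
        have h1 : l ^ 3 ≤ (2 * v) ^ 3 := by
          have h2 : (X : ℝ) ≤ N * N := by exact_mod_cast hNN.le
          have h3 := Real.log_le_log hX0 h2
          rw [Real.log_mul hN0.ne' hN0.ne', ← hl3, ← hv3] at h3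
          have h4 : 0 ≤ v ^ 3 := by positivity
          have h5 : (2 * v) ^ 3 = 8 * v ^ 3 := by ring
          rw [h5]
          linarith
        exact le_of_pow_le_pow_left₀ (by norm_num) (by linarith) h1
      unfold Slow3
      rw [← hv, ← hv2]
      have hle : Real.exp (1 / (4 * C₁ * K) * v) ≤ ((2 ^ h : ℕ) : ℝ) := by
        rw [hpow]
        apply Real.exp_le_exp.2
        have e1 : 1 / (4 * C₁ * K) * v ≤ R / 4 := by
          rw [hR]
          calc 1 / (4 * C₁ * K) * v ≤ 1 / (4 * C₁ * K) * l := by gcongr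
            _ = l / (C₁ * K) / 4 := by
              field_simp
        calc 1 / (4 * C₁ * K) * v ≤ R / 4 := e1
          _ = (R / 2) * (1 / 2) := by ring
          _ ≤ h * Real.log 2 := mul_le_mul hhalf hlog2 (by norm_num) (by positivity)
      refine ⟨hle.trans ?_, fun n hn1 hn2 => ?_⟩
      · exact_mod_cast hgood.1.le
      · have hn3 : n ≤ 2 ^ h := by exact_mod_cast hn2.trans hle
        have h1 := hgood.2 n hn1 hn3
        have h2 : (N : ℝ) - ((2 ^ (C * (h * s)) : ℕ) : ℝ) ≤ a N n := by exact_mod_cast h1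
        refine le_trans ?_ h2
        have h3 : ((2 ^ (C * (h * s)) : ℕ) : ℝ) ≤ Real.exp (4 * C₁ * K * v ^ 2) := by
          rw [hpow]
          apply Real.exp_le_exp.2
          have e1 : ((C * (h * s) : ℕ) : ℝ) ≤ C₁ * K * l ^ 2 := by
            push_cast
            rw [hsr, ← hRl]
            calc (C : ℝ) * ((h : ℝ) * (K ^ 3 * h)) ≤ (C₁ : ℝ) ^ 3 * (R * (K ^ 3 * R)) := by gcongr
              _ = C₁ * K * (C₁ * K * R) ^ 2 := by ring
          have e2 : l ^ 2 ≤ (2 * v) ^ 2 := pow_le_pow_left₀ hl0.le hlv 2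
          calc ((C * (h * s) : ℕ) : ℝ) * Real.log 2 ≤ (C₁ * K * l ^ 2) * 1 :=
                mul_le_mul e1 hlog2' (by linarith) (by positivity)
            _ = C₁ * K * l ^ 2 := mul_one _
            _ ≤ C₁ * K * (2 * v) ^ 2 := by gcongr
            _ = 4 * C₁ * K * v ^ 2 := by ring
        linarith
  have h1 := (card_le_card hsub).trans (card_union_le _ _)
  have h2 : (((Icc 3 X).filter (fun N : ℕ => ¬ Slow3 (1 / (4 * C₁ * K)) (4 * C₁ * K) N)).card : ℝ) ≤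
      ((Icc 1 (Nat.sqrt X)).card : ℝ) + (((Icc 3 X).filter (fun N : ℕ => ¬ (2 ^ h < g N ∧ ∀ n, 1 ≤ n → n ≤ 2 ^ h →
      (N : ℤ) - 2 ^ (C * (h * s)) ≤ a N n))).card : ℝ) := by exact_mod_cast h1
  refine h2.trans ?_
  -- exp (-2 B l) ≤ exp (-B l) / 2
  have hhalf2 : Real.exp (-(B * l)) ≤ 1 / 2 := by
    have h3 : 1 ≤ B * l := by nlinarith
    have h4 : Real.exp (-(B * l)) ≤ Real.exp (-1) := Real.exp_le_exp.2 (by linarith)
    have h5 : Real.exp (-1) ≤ 1 / 2 := by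
      rw [Real.exp_neg, ← one_div]
      apply one_div_le_one_div_of_le (by norm_num)
      have := Real.add_one_le_exp (1 : ℝ)
      linarith
    linarith
  have hep := Real.exp_pos (-(B * l))
  have hXs : (X : ℝ) * Real.exp (-(2 * (B * l))) ≤ X * Real.exp (-(B * l)) / 2 := by
    have e : Real.exp (-(2 * (B * l))) = Real.exp (-(B * l)) * Real.exp (-(B * l)) := by
      rw [← Real.exp_add]; ring_nf
    rw [e]
    have h3 : Real.exp (-(B * l)) * Real.exp (-(B * l)) ≤ Real.exp (-(B * l)) * (1 / 2) :=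
      mul_le_mul_of_nonneg_left hhalf2 hep.le
    calc (X : ℝ) * (Real.exp (-(B * l)) * Real.exp (-(B * l))) ≤ X * (Real.exp (-(B * l)) * (1 / 2)) := by gcongr
      _ = X * Real.exp (-(B * l)) / 2 := by ring
  have t1 : ((Icc 1 (Nat.sqrt X)).card : ℝ) ≤ X * Real.exp (-(B * l)) / 2 := by
    rw [Nat.card_Icc, Nat.add_sub_cancel]
    have h3 : (Nat.sqrt X : ℝ) ≤ Real.exp (l ^ 3 / 2) := by
      have h4 : (Nat.sqrt X : ℝ) * Nat.sqrt X ≤ X := by exact_mod_cast Nat.sqrt_le X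
      have h5 : Real.exp (l ^ 3 / 2) * Real.exp (l ^ 3 / 2) = X := by
        rw [← Real.exp_add, hXe]
        congr 1
        ring
      have h6 := Real.exp_pos (l ^ 3 / 2)
      by_contra hcon
      push Not at hcon
      have := mul_self_lt_mul_self h6.le hcon
      linarith
    refine h3.trans (le_trans ?_ hXs)
    rw [hXe, ← Real.exp_add]
    apply Real.exp_le_exp.2
    have h7 : 4 * (B * l) ≤ l ^ 3 := by
      have h8 : 4 * B ≤ l := by linarith
      have h9 : 1 ≤ l := by linarith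
      have h10 : l ^ 3 = l * l * l := by ring
      rw [h10]
      calc 4 * (B * l) = 4 * B * 1 * l := by ring
        _ ≤ l * l * l := by gcongr
    linarith
  have t2 : (X : ℝ) / 2 ^ s ≤ X * Real.exp (-(B * l)) / 2 := by
    refine le_trans ?_ hXs
    have e : (X : ℝ) / 2 ^ s = X * Real.exp (-(s * Real.log 2)) := by
      rw [Real.exp_neg, ← div_eq_mul_inv]
      congr 1
      have := hpow s
      push_cast at this
      exact this
    rw [e]
    apply mul_le_mul_of_nonneg_left _ hX0.le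
    apply Real.exp_le_exp.2
    have h3 : 2 * (B * l) ≤ s * Real.log 2 := by
      have h4 : 4 * (B * l) ≤ s := by
        rw [hsr, ← hRl]
        calc 4 * (B * (C₁ * K * R)) = (8 * B * C₁) * K * (R / 2) := by ring
          _ ≤ K * K * (R / 2) := by gcongr
          _ ≤ K * K * h := by gcongr
          _ ≤ K * K * (K * h) := by
            have : (h : ℝ) ≤ K * h := by
              have h5 : (0 : ℝ) ≤ h := Nat.cast_nonneg h
              nlinarith
            gcongr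
          _ = K ^ 3 * h := by ring
      have h5 : (s : ℝ) * (1 / 2) ≤ s * Real.log 2 := by gcongr
      linarith
    linarith
  linarith

end Pool.Agent.L7h79.GR
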