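import Pool.Agent.N333.GR.Stm

/-!
# The gcd recursion for Goldbach pairs: a faster union bound (statements of the parts)

Continuation of `Pool.Agent.N333.GR`. The union bound over the runs of jumps loses there a factor `G` for each
pair of jumps; here the loss is a factor `M` for each jump, if the `N` are typical: the numbers `2 N - n` have
at most `M` divisors up to `Z`.
-/

set_option autoImplicit false

namespace Pool.Agent.L7h79.GR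

open Finset Pool.Agent.N333.GR

/-- for every odd `n ≤ G` the number `2 N - n` has at most `M` divisors up to `Z` -/
def Typ (G Z M N : ℕ) : Prop :=
  ∀ n : ℕ, n ≤ G → n % 2 = 1 → ((Icc 1 Z).filter (fun E : ℕ => (E : ℤ) ∣ 2 * (N : ℤ) - n)).card ≤ M

open Classical in
/-- **TYP** (Markov): Σ_N Σ_n #divisors, and for odd `n` a divisor `E` of `2 N - n` is odd, so that `N` lies in one
class mod `E`: at most `X / E + 1` numbers `N ≤ X` -/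
def S_TYP : Prop := ∀ G Z M X : ℕ, 1 ≤ G → 1 ≤ Z → 1 ≤ M →
  (((Icc 1 X).filter (fun N : ℕ => ¬ Typ G Z M N)).card : ℝ) ≤
    (G : ℝ) * ((X : ℝ) * (1 + Real.log Z) + Z) / M

/-- **WA'** (as `Pool.Agent.N333.GR.Wt.t_WA`; `gcd K d ≤ ∑_{E ∣ K, E ∣ d} E`, `d = E d'`) -/
def S_WA' : Prop := ∀ (D Ts G t' K : ℕ), 1 ≤ D → 1 ≤ G → 1 ≤ K →
  ∑ d ∈ Icc D Ts, ∑ _t ∈ (Icc 1 Ts).filter (fun t => d ∣ t ∧ t' ≤ t ∧ t ≤ t' + 2 * G * d),
    ((Nat.gcd K d : ℕ) : ℝ) / (d : ℝ) ≤ (K.divisors.card : ℝ) * (3 * G * (1 + Real.log Ts))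

/-- **WB'** (as `Pool.Agent.N333.GR.Wt.t_WB`, `sumWB`): for fixed `E ∣ K` and quotient `v = t / d ≤ V = Ts / D` the
multiples `d` of `E` with `t' ≤ v d`, `Y (v d - t') < d` are in an interval of length `t' / (v (Y v - 1))`, and
`E / d ≤ E v / t'`: together `≤ 2 / (Y v) + E v / t'`; sum over `v ≤ V`, `E V ^ 2 Y ≤ t'` -/
def S_WB' : Prop := ∀ (D T0 Ts Y t' K Z : ℕ), 1 ≤ D → 2 ≤ Y → 1 ≤ T0 → T0 ≤ t' → 1 ≤ K → K ≤ Z →
  Z * (Ts ^ 2 * Y) ≤ T0 * D ^ 2 →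
  ∑ d ∈ Icc D Ts, ∑ _t ∈ (Icc 1 Ts).filter (fun t => d ∣ t ∧ t' ≤ t ∧ Y * (t - t') < d),
    ((Nat.gcd K d : ℕ) : ℝ) / (d : ℝ) ≤ (K.divisors.card : ℝ) * (3 * (1 + Real.log Ts) / Y)

open Classical in
/-- **CNT'** the number of typical `N ≤ X` with a bad run of length `2 b` at the level `D` -/
def S_CNT' : Prop := ∀ (G Y T0 Ts D b X M Z : ℕ), 1 ≤ G → 2 ≤ Y → 1 ≤ T0 → 1 ≤ Ts → 1 ≤ D → 1 ≤ b → 1 ≤ M →
  G ^ (2 * b) ≤ Z → Z * (Ts ^ 2 * Y) ≤ T0 * D ^ 2 →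
  (((Icc 1 X).filter (fun N : ℕ => Typ G Z M N ∧ BadRun G Y T0 Ts D (2 * b) N)).card : ℝ) ≤
    4 ^ b * ((X : ℝ) * (G * (Ts : ℝ) ^ 2) *
      (M * (3 * (G : ℝ) ^ 2 * (1 + Real.log Ts))) ^ (2 * b) / (Y : ℝ) ^ b +
      (G * (Ts : ℝ) ^ 2) ^ (2 * b))

end Pool.Agent.L7h79.GR
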