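import Pool.Agent.L7h79.GR.Cnt
import Pool.Agent.N333.GR.Sub

/-!
# Exceptional `N` have a bad run at one of the levels: other parameters
-/

set_option autoImplicit false

namespace Pool.Agent.L7h79.GR

open Finset Pool.Agent.N333.GR Pool.Agent.N333.GR.Sub

theorem exc_sub' (hREC : S_REC) (hBIG : S_BIG) (hRUN : S_RUN) (h N m y u : ℕ) (hh : 1 ≤ h)
    (hm' : m = 6 * h + 4) (hu' : u = 1 + h + y) (hyl : 100 ≤ y) (hN : 3 ≤ N)
    (hN2 : 2 ^ (10 * m * u) ≤ N)
    (hexc : ¬ (2 ^ h < g N ∧ ∀ n, 1 ≤ n → n ≤ 2 ^ h →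
      (N : ℤ) - 2 ^ (10 * m * u) ≤ a N n)) :
    ∃ k < 6 * h, BadRun (2 ^ h) (2 ^ y) (2 ^ (8 * m * u)) (2 ^ (10 * m * u))
      (2 ^ ((8 * m - 2 - k) * u)) (64 * m) N := by
  classical
  have hul : 102 ≤ u := by omega
  have hml : 10 ≤ m := by omega
  have hhu : h + 1 < u := by omega
  have hTs : 2 ^ h + 1 ≤ 2 ^ (10 * m * u) := by
    have : 2 ^ (h + 1) ≤ 2 ^ (10 * m * u) := Nat.pow_le_pow_right (by norm_num) (by nlinarith)
    have h2 : 2 ^ (h + 1) = 2 * 2 ^ h := by ring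
    have h3 : 1 ≤ 2 ^ h := Nat.one_le_two_pow
    omega
  obtain ⟨⟨hg2, hg0⟩, hpos, T, j, hW, hT⟩ := hREC N hN
  -- a time at which `T` is large
  have hex : ∃ n, 2 ≤ n ∧ n ≤ 2 ^ h ∧ n ≤ g N ∧ 2 ^ (10 * m * u) < T (n + 1) := by
    by_cases hgG : g N ≤ 2 ^ h
    · refine ⟨g N, hg2, hgG, le_rfl, ?_⟩
      have h1 := hT (g N + 1) (by omega) le_rfl
      rw [Nat.add_sub_cancel, hg0] at h1
      have h2 : ((2 ^ (10 * m * u) : ℕ) : ℤ) < (T (g N + 1) : ℤ) := by
        rw [h1]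
        push_cast
        have h3 : ((2 ^ (10 * m * u) : ℕ) : ℤ) ≤ N := by exact_mod_cast hN2
        have h4 : ((2 ^ h + 1 : ℕ) : ℤ) ≤ ((2 ^ (10 * m * u) : ℕ) : ℤ) := by exact_mod_cast hTs
        have h5 : ((g N : ℕ) : ℤ) ≤ ((2 ^ h : ℕ) : ℤ) := by exact_mod_cast hgG
        push_cast at h3 h4 h5
        rcases Nat.lt_or_ge (g N) (2 ^ h) with h6 | h6
        · have h7 : ((g N : ℕ) : ℤ) + 1 ≤ ((2 ^ h : ℕ) : ℤ) := by exact_mod_cast h6
          push_cast at h7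
          linarith
        · -- then `2 N - g - 1 > Ts` still needs strictness
          have h8 : 2 ^ h + 2 ≤ 2 ^ (10 * m * u) := by
            have : 2 ^ (h + 1) ≤ 2 ^ (10 * m * u) := Nat.pow_le_pow_right (by norm_num) (by nlinarith)
            have h2 : 2 ^ (h + 1) = 2 * 2 ^ h := by ring
            have h3 : 2 ^ 1 ≤ 2 ^ h := Nat.pow_le_pow_right (by norm_num) hh
            omega
          have h9 : ((2 ^ h + 2 : ℕ) : ℤ) ≤ ((2 ^ (10 * m * u) : ℕ) : ℤ) := by exact_mod_cast h8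
          push_cast at h9
          linarith
      exact_mod_cast h2
    · push Not at hgG
      have h1 : ∃ n, 1 ≤ n ∧ n ≤ 2 ^ h ∧ a N n < (N : ℤ) - 2 ^ (10 * m * u) := by
        by_contra hcon
        push Not at hcon
        exact hexc ⟨hgG, fun n h1 h2 => hcon n h1 h2⟩
      obtain ⟨n, hn1, hn2, hn3⟩ := h1
      have hne : n ≠ 1 := by
        rintro rfl
        have e : a N 1 = (N : ℤ) - 2 := rfl
        rw [e] at hn3
        have h4 : ((2 ^ h + 1 : ℕ) : ℤ) ≤ ((2 ^ (10 * m * u) : ℕ) : ℤ) := by exact_mod_cast hTs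
        have h5 : (1 : ℤ) ≤ 2 ^ h := one_le_pow₀ (by norm_num)
        push_cast at h4
        linarith
      refine ⟨n, by omega, hn2, by omega, ?_⟩
      have h1 := hT (n + 1) (by omega) (by omega)
      rw [Nat.add_sub_cancel] at h1
      have h2 : ((2 ^ (10 * m * u) : ℕ) : ℤ) < (T (n + 1) : ℤ) := by
        rw [h1]
        have h4 : ((2 ^ h + 1 : ℕ) : ℤ) ≤ ((2 ^ (10 * m * u) : ℕ) : ℤ) := by exact_mod_cast hTs
        have h5 : ((n : ℕ) : ℤ) ≤ ((2 ^ h : ℕ) : ℤ) := by exact_mod_cast hn2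
        push_cast at h4 h5 ⊢
        linarith
      exact_mod_cast h2
  -- the first such time
  set G' := Nat.find hex with hG'
  obtain ⟨hG2, hGG, hGg, hGT⟩ := Nat.find_spec hex
  rw [← hG'] at hG2 hGG hGg hGT
  have hmin : ∀ n, 2 ≤ n → n ≤ G' → T n ≤ 2 ^ (10 * m * u) := by
    intro n hn1 hn2
    rcases Nat.lt_or_ge 2 n with h3 | h3
    · have h4 := Nat.find_min hex (m := n - 1) (by omega)
      by_contra hcon
      push Not at hcon
      apply h4
      refine ⟨by omega, by omega, by omega, ?_⟩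
      rw [show n - 1 + 1 = n by omega]
      exact hcon
    · have : n = 2 := by omega
      rw [this, hW.start]
      calc 2 = 2 ^ 1 := by norm_num
        _ ≤ 2 ^ (10 * m * u) := Nat.pow_le_pow_right (by norm_num) (by nlinarith)
  have hW' : Walk N G' T j := walk_mono hGg hW
  by_contra hcon
  push Not at hcon
  -- many big jumps
  have hK : (8 * m - 2 - 0) * u = (8 * m - 2) * u := by rw [Nat.sub_zero]
  have hbig : m * u ≤ (J G' (2 ^ (8 * m * u)) (2 ^ ((8 * m - 2 - 0) * u)) T j).card := by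
    apply hBIG N G' (2 ^ (8 * m * u)) (2 ^ ((8 * m - 2 - 0) * u)) (m * u) T j hW' (by omega)
    · calc 3 ≤ 2 ^ 2 := by norm_num
        _ ≤ 2 ^ (8 * m * u) := Nat.pow_le_pow_right (by norm_num) (by nlinarith)
    · exact hGG.trans (Nat.pow_le_pow_right (by norm_num) (by nlinarith))
    · calc 2 * G' * 2 ^ ((8 * m - 2 - 0) * u) ≤ 2 * 2 ^ h * 2 ^ ((8 * m - 2 - 0) * u) := by gcongr
        _ = 2 ^ (1 + h + (8 * m - 2) * u) := by rw [hK]; ring
        _ < 2 ^ (8 * m * u) := by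
          apply Nat.pow_lt_pow_right (by norm_num)
          obtain ⟨q, hq⟩ : ∃ q, 8 * m = q + 2 := ⟨8 * m - 2, by omega⟩
          rw [hq, Nat.add_sub_cancel]
          nlinarith
    · calc 4 ^ (m * u) * 2 ^ (8 * m * u) = 2 ^ (10 * m * u) := by
            rw [show (4 : ℕ) = 2 ^ 2 by norm_num, ← pow_mul, ← pow_add]
            congr 1
            ring
        _ < T (G' + 1) := hGT
  have hrun := hRUN N G' (2 ^ y) (2 ^ (8 * m * u)) (2 ^ (10 * m * u)) (64 * m) (6 * h) T j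
    (fun k => 2 ^ ((8 * m - 2 - k) * u)) hW' hmin (by omega) Nat.one_le_two_pow (by omega)
    (by
      intro k hk
      refine lt_of_le_of_lt hGG ?_
      apply Nat.pow_lt_pow_right (by norm_num)
      have : 1 ≤ 8 * m - 2 - k := by omega
      nlinarith)
    (by
      intro k hk
      obtain ⟨q, hq⟩ : ∃ q, 8 * m - 2 - k = q + 1 := ⟨8 * m - 2 - k - 1, by omega⟩
      have hq2 : 8 * m - 2 - (k + 1) = q := by omega
      rw [hq, hq2]
      calc 2 * G' * 2 ^ y * 2 ^ (q * u) ≤ 2 * 2 ^ h * 2 ^ y * 2 ^ (q * u) := by gcongr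
        _ = 2 ^ (1 + h + y + q * u) := by ring
        _ = 2 ^ ((q + 1) * u) := by
          rw [← hu']
          congr 1
          ring
        _ ≤ 2 ^ ((q + 1) * u) := le_rfl)
    (fun k hk hbad => hcon k hk (badRun_mono hGG hbad))
    (by
      refine le_trans ?_ hbig
      nlinarith)
  -- contradiction
  have h1 : 9 ^ (6 * h) * (m * u) ≤ 8 ^ (6 * h) * 2 ^ h :=
    calc 9 ^ (6 * h) * (m * u) ≤ 9 ^ (6 * h) *
          (J G' (2 ^ (8 * m * u)) (2 ^ ((8 * m - 2 - 0) * u)) T j).card := by gcongr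
      _ ≤ 8 ^ (6 * h) * G' := hrun
      _ ≤ 8 ^ (6 * h) * 2 ^ h := by gcongr
  have h2 : 8 ^ (6 * h) * 2 ^ h ≤ 9 ^ (6 * h) := by
    rw [pow_mul, pow_mul, ← mul_pow]
    apply Nat.pow_le_pow_left
    norm_num
  have h3 : 0 < 9 ^ (6 * h) := by positivity
  have h4 : 2 ≤ m * u := by nlinarith
  nlinarith


end Pool.Agent.L7h79.GR
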